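import Pool.Agent.Q198.BP

set_option autoImplicit false

/-!
# MP_7e7193_an, Q1: the spherical Bishop-Phelps-Bollobas modulus for real-valued functionals is at most
`min (√(2ε)) 1`
-/

namespace Pool.Agent.Results.MP_7e7193_an.ModulusBound

open Pool.Agent.Q198

/-- `δ` has the property defining the modulus: every pair `(x, x*)` in `S_X × S_{X*}` with
`x*(x) > 1 - ε` is at distance less than `δ` (in both coordinates) from a pair `(y, y*)` in
`S_X × S_{X*}` with `|y*(y)| = 1`. -/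
def HasProperty (X : Type*) [NormedAddCommGroup X] [NormedSpace ℝ X] (ε δ : ℝ) : Prop :=
  ∀ (x : X) (f : X →L[ℝ] ℝ), ‖x‖ = 1 → ‖f‖ = 1 → 1 - ε < f x →
    ∃ (y : X) (g : X →L[ℝ] ℝ), ‖y‖ = 1 ∧ ‖g‖ = 1 ∧ |g y| = 1 ∧ ‖x - y‖ < δ ∧ ‖f - g‖ < δ

/-- The modulus `Φ^S(X, ℝ, ε)`. -/
noncomputable def modulus (X : Type*) [NormedAddCommGroup X] [NormedSpace ℝ X] (ε : ℝ) : ℝ :=
  sInf {δ : ℝ | 0 < δ ∧ HasProperty X ε δ}

variable {X : Type*} [NormedAddCommGroup X] [NormedSpace ℝ X]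

/-- A functional whose values on the unit ball are at most `F y`, with `‖y‖ ≤ 1`, has norm `F y`. -/
lemma norm_eq_of_max (F : X →L[ℝ] ℝ) (y : X) (hy : ‖y‖ ≤ 1) (h : ∀ u : X, ‖u‖ ≤ 1 → F u ≤ F y) :
    ‖F‖ = F y ∧ (0 < ‖F‖ → ‖y‖ = 1) := by
  have h0 : 0 ≤ F y := by
    have := h 0 (by simp)
    simpa using this
  have h1 : ‖F‖ ≤ F y := by
    refine ContinuousLinearMap.opNorm_le_of_unit_norm h0 ?_
    intro u hu
    rw [Real.norm_eq_abs, abs_le]
    constructor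
    · have := h (-u) (by rw [norm_neg, hu])
      rw [map_neg] at this
      linarith
    · exact h u hu.le
  have h2 : F y ≤ ‖F‖ * ‖y‖ := (Real.le_norm_self _).trans (F.le_opNorm y)
  have h3 : ‖F‖ * ‖y‖ ≤ ‖F‖ := by nlinarith [norm_nonneg F]
  refine ⟨by linarith, fun hpos => ?_⟩
  have h4 : ‖F‖ * ‖y‖ = ‖F‖ * 1 := by linarith
  exact mul_left_cancel₀ hpos.ne' h4

/-- Decomposition of a functional which attains its maximum over `B ∩ (x + B)`. -/
lemma splitting [CompleteSpace X] (x y : X) (hx : ‖x‖ = 1) (hy : ‖y‖ ≤ 1) (hyx : ‖y - x‖ ≤ 1)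
    (F : X →L[ℝ] ℝ) (hmax : ∀ z : X, ‖z‖ ≤ 1 → ‖z - x‖ ≤ 1 → F z ≤ F y) :
    ∃ f g : X →L[ℝ] ℝ, f + g = F ∧ (∀ u : X, ‖u‖ ≤ 1 → f u ≤ f y) ∧
      (∀ u : X, ‖u‖ ≤ 1 → g u ≤ g (y - x)) := by
  -- the open convex set
  let O : Set (X × X × ℝ) := {p | ‖p.1‖ < 1 ∧ ‖p.2.1 - x‖ < 1 ∧ p.2.2 < F p.1 - F y}
  have hO : IsOpen O := by
    have h1 : IsOpen {p : X × X × ℝ | ‖p.1‖ < 1} := isOpen_lt (by fun_prop) continuous_const
    have h2 : IsOpen {p : X × X × ℝ | ‖p.2.1 - x‖ < 1} :=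
      isOpen_lt (by fun_prop) continuous_const
    have h3 : IsOpen {p : X × X × ℝ | p.2.2 < F p.1 - F y} :=
      isOpen_lt (by fun_prop) (by fun_prop)
    exact h1.inter (h2.inter h3)
  have hOc : Convex ℝ O := by
    rintro ⟨u, v, r⟩ ⟨h1, h2, h3⟩ ⟨u', v', r'⟩ ⟨h1', h2', h3'⟩ a b ha hb hab
    simp only at h1 h2 h3 h1' h2' h3'
    have hc1 : Convex ℝ (Metric.ball (0 : X) 1) := convex_ball _ _
    have hc2 : Convex ℝ (Metric.ball x 1) := convex_ball _ _
    refine ⟨?_, ?_, ?_⟩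
    · have := hc1 (mem_ball_zero_iff.2 h1) (mem_ball_zero_iff.2 h1') ha hb hab
      exact mem_ball_zero_iff.1 this
    · have := hc2 (mem_ball_iff_norm.2 h2) (mem_ball_iff_norm.2 h2') ha hb hab
      exact mem_ball_iff_norm.1 this
    · simp only [Prod.smul_mk, Prod.mk_add_mk, smul_eq_mul, map_add, map_smul]
      rcases ha.eq_or_lt with h | h
      · subst h
        have hb1 : b = 1 := by linarith
        subst hb1
        simp only [zero_mul, one_mul, zero_add]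
        exact h3'
      · have h4 : a * r < a * (F u - F y) := mul_lt_mul_of_pos_left h3 h
        have h5 : b * r' ≤ b * (F u' - F y) := mul_le_mul_of_nonneg_left h3'.le hb
        have h6 : F y = a * F y + b * F y := by rw [← add_mul, hab, one_mul]
        nlinarith
  let L : (X × X × ℝ) →L[ℝ] (X × ℝ) :=
    (ContinuousLinearMap.fst ℝ X (X × ℝ)
      - (ContinuousLinearMap.fst ℝ X ℝ).comp (ContinuousLinearMap.snd ℝ X (X × ℝ))).prod
      ((ContinuousLinearMap.snd ℝ X ℝ).comp (ContinuousLinearMap.snd ℝ X (X × ℝ)))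
  have hL : ∀ u v r, L (u, v, r) = (u - v, r) := fun u v r => rfl
  have hLs : Function.Surjective L := by
    rintro ⟨w, r⟩
    exact ⟨(w, 0, r), by rw [hL, sub_zero]⟩
  have hS : IsOpen (L '' O) := L.isOpenMap hLs O hO
  have hSc : Convex ℝ (L '' O) := hOc.linear_image L.toLinearMap
  have h0 : (0 : X × ℝ) ∉ L '' O := by
    rintro ⟨⟨u, v, r⟩, ⟨h1, h2, h3⟩, h4⟩
    rw [hL] at h4
    have h5 : u - v = 0 := congrArg Prod.fst h4
    have h6 : r = 0 := congrArg Prod.snd h4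
    simp only at h1 h2 h3
    have h7 : v = u := (sub_eq_zero.1 h5).symm
    rw [h7] at h2
    have := hmax u h1.le h2.le
    linarith
  obtain ⟨φ, hφ⟩ := geometric_hahn_banach_open_point hSc hS h0
  rw [map_zero] at hφ
  let h : X →L[ℝ] ℝ := φ.comp (ContinuousLinearMap.inl ℝ X ℝ)
  set c : ℝ := φ (0, 1) with hc
  have hφd : ∀ w r, φ (w, r) = h w + c * r := by
    intro w r
    have : ((w, r) : X × ℝ) = (w, 0) + r • (0, 1) := by simp
    rw [this, map_add, map_smul, smul_eq_mul, mul_comm]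
    rfl
  have key : ∀ u v r, ‖u‖ < 1 → ‖v - x‖ < 1 → r < F u - F y → h (u - v) + c * r < 0 := by
    intro u v r h1 h2 h3
    have := hφ (u - v, r) ⟨(u, v, r), ⟨h1, h2, h3⟩, hL u v r⟩
    rwa [hφd] at this
  -- the centre
  have hm1 : ‖(1 / 2 : ℝ) • x‖ < 1 := by
    rw [norm_smul, hx, Real.norm_of_nonneg (by norm_num)]; norm_num
  have hm2 : ‖(1 / 2 : ℝ) • x - x‖ < 1 := by
    have : (1 / 2 : ℝ) • x - x = (-(1 / 2) : ℝ) • x := by
      rw [show (-(1 / 2) : ℝ) = 1 / 2 - 1 by norm_num, sub_smul, one_smul]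
    rw [this, norm_smul, hx, Real.norm_eq_abs, abs_of_neg (by norm_num)]; norm_num
  have hcpos : 0 < c := by
    have h1 := hmax _ hm1.le hm2.le
    have h2 := key _ _ (F ((1 / 2 : ℝ) • x) - F y - 1) hm1 hm2 (by linarith)
    rw [sub_self, map_zero, zero_add] at h2
    by_contra hcon
    push Not at hcon
    nlinarith
  -- closed version
  have keyc : ∀ u v, ‖u‖ ≤ 1 → ‖v - x‖ ≤ 1 → h (u - v) + c * (F u - F y) ≤ 0 := by
    intro u v hu hv
    by_contra hcon
    push Not at hcon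
    set m : X := (1 / 2 : ℝ) • x with hm
    set A : ℝ := h (u - v) + c * (F u - F y) with hA
    set K : ℝ := |h (m - u - (m - v))| + c * |F (m - u)| + c with hK
    have hK0 : 0 < K := by positivity
    set t : ℝ := min (1 / 2) (A / (2 * K)) with ht
    have ht0 : 0 < t := lt_min (by norm_num) (by positivity)
    have ht1 : t ≤ 1 / 2 := min_le_left _ _
    have ht2 : t * K ≤ A / 2 := by
      have : t ≤ A / (2 * K) := min_le_right _ _
      calc t * K ≤ A / (2 * K) * K := mul_le_mul_of_nonneg_right this hK0.le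
        _ = A / 2 := by field_simp
    have h1 : ‖u + t • (m - u)‖ < 1 := by
      have e : u + t • (m - u) = (1 - t) • u + t • m := by
        rw [smul_sub, sub_smul, one_smul]; abel
      rw [e]
      refine lt_of_le_of_lt (norm_add_le _ _) ?_
      rw [norm_smul, norm_smul, Real.norm_of_nonneg (by linarith), Real.norm_of_nonneg ht0.le]
      nlinarith [norm_nonneg u, norm_nonneg m]
    have h2 : ‖v + t • (m - v) - x‖ < 1 := by
      have e : v + t • (m - v) - x = (1 - t) • (v - x) + t • (m - x) := by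
        rw [smul_sub, smul_sub, smul_sub, sub_smul, sub_smul, one_smul, one_smul]; abel
      rw [e]
      refine lt_of_le_of_lt (norm_add_le _ _) ?_
      rw [norm_smul, norm_smul, Real.norm_of_nonneg (by linarith), Real.norm_of_nonneg ht0.le]
      nlinarith [norm_nonneg (v - x), norm_nonneg (m - x)]
    have h3 := key _ _ (F (u + t • (m - u)) - F y - t) h1 h2 (by linarith)
    have e1 : u + t • (m - u) - (v + t • (m - v)) = (u - v) + t • (m - u - (m - v)) := by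
      rw [smul_sub t (m - u) (m - v)]; abel
    rw [e1, map_add, map_smul, map_add, map_smul, smul_eq_mul, smul_eq_mul] at h3
    have h4 : h (u - v) + t * h (m - u - (m - v)) + c * (F u + t * F (m - u) - F y - t)
        = A + t * (h (m - u - (m - v)) + c * F (m - u) - c) := by rw [hA]; ring
    rw [h4] at h3
    have h5 : -K ≤ h (m - u - (m - v)) + c * F (m - u) - c := by
      have h6 := neg_abs_le (h (m - u - (m - v)))
      have h7 := mul_le_mul_of_nonneg_left (neg_abs_le (F (m - u))) hcpos.le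
      rw [hK]; linarith
    have h6 : t * (-K) ≤ t * (h (m - u - (m - v)) + c * F (m - u) - c) :=
      mul_le_mul_of_nonneg_left h5 ht0.le
    linarith
  refine ⟨F + c⁻¹ • h, -(c⁻¹ • h), by abel, ?_, ?_⟩
  · intro u hu
    have h1 := keyc u y hu hyx
    have h2 : c⁻¹ * (h (u - y) + c * (F u - F y)) ≤ 0 :=
      mul_nonpos_of_nonneg_of_nonpos (inv_nonneg.2 hcpos.le) h1
    rw [mul_add, ← mul_assoc, inv_mul_cancel₀ hcpos.ne', one_mul, map_sub, mul_sub] at h2
    simp only [add_apply, smul_apply, smul_eq_mul]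
    linarith
  · intro w hw
    have h1 := keyc y (w + x) hy (by rw [add_sub_cancel_right]; exact hw)
    rw [sub_self, mul_zero, add_zero] at h1
    have h2 : c⁻¹ * h (y - (w + x)) ≤ 0 :=
      mul_nonpos_of_nonneg_of_nonpos (inv_nonneg.2 hcpos.le) h1
    have e : y - (w + x) = (y - x) - w := by abel
    rw [e, map_sub, mul_sub] at h2
    simp only [neg_apply, smul_apply, smul_eq_mul]
    linarith

/-- The bound `1`: every pair is within `1 + η` of a pair `(y, y*)` with `|y*(y)| = 1`. -/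
lemma bound_one [CompleteSpace X] (x : X) (f₀ : X →L[ℝ] ℝ) (hx : ‖x‖ = 1) (hf₀ : ‖f₀‖ = 1) (η : ℝ)
    (hη : 0 < η) (hη1 : η < 1) :
    ∃ (y : X) (g : X →L[ℝ] ℝ), ‖y‖ = 1 ∧ ‖g‖ = 1 ∧ |g y| = 1 ∧ ‖x - y‖ ≤ 1 ∧
      ‖f₀ - g‖ ≤ 1 + 3 * η := by
  let C : Set X := Metric.closedBall 0 1 ∩ Metric.closedBall x 1
  have hCc : IsClosed C := Metric.isClosed_closedBall.inter Metric.isClosed_closedBall
  have hCv : Convex ℝ C := (convex_closedBall _ _).inter (convex_closedBall _ _)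
  have h0C : (0 : X) ∈ C := ⟨by simp, by simp [hx]⟩
  obtain ⟨y, F, hyC, hF, -, hmax⟩ := bp_convex C hCc hCv f₀ 1 (fun z hz => by
    have h1 : ‖z‖ ≤ 1 := by simpa using hz.1
    refine (Real.le_norm_self _).trans ((f₀.le_opNorm z).trans ?_)
    rw [hf₀, one_mul]; exact h1) 0 h0C η hη
  have hy : ‖y‖ ≤ 1 := by simpa using hyC.1
  have hyx : ‖y - x‖ ≤ 1 := mem_closedBall_iff_norm.1 hyC.2
  obtain ⟨f, g, hfg, hf, hg⟩ := splitting x y hx hy hyx F (fun z h1 h2 =>
    hmax z ⟨by simpa using h1, mem_closedBall_iff_norm.2 h2⟩)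
  obtain ⟨hf1, hf2⟩ := norm_eq_of_max f y hy hf
  obtain ⟨hg1, hg2⟩ := norm_eq_of_max g (y - x) hyx hg
  set a : ℝ := ‖f‖ with ha
  set b : ℝ := ‖g‖ with hb
  have ha0 : 0 ≤ a := norm_nonneg _
  have hb0 : 0 ≤ b := norm_nonneg _
  have hFn : ‖F‖ ≤ 1 + η := by
    have : F = f₀ + (F - f₀) := by abel
    rw [this]
    refine (norm_add_le _ _).trans ?_
    rw [hf₀]; linarith
  have hFn' : 1 - η ≤ ‖F‖ := by
    have : f₀ = F - (F - f₀) := by abel
    have h1 : ‖f₀‖ ≤ ‖F‖ + ‖F - f₀‖ := by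
      conv_lhs => rw [this]
      exact norm_sub_le _ _
    rw [hf₀] at h1; linarith
  have hsum : ‖F‖ ≤ a + b := by rw [← hfg]; exact norm_add_le _ _
  have hFy : F y ≤ 1 + η := by
    refine (Real.le_norm_self _).trans ((F.le_opNorm y).trans ?_)
    nlinarith [norm_nonneg F]
  have hFyx : F (y - x) ≤ 1 + η := by
    refine (Real.le_norm_self _).trans ((F.le_opNorm _).trans ?_)
    nlinarith [norm_nonneg F]
  have hgx : -b ≤ g x := by
    have h1 := (g.le_opNorm x)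
    rw [hx, mul_one, Real.norm_eq_abs] at h1
    exact (abs_le.1 h1).1
  have hfx : f x ≤ a := by
    have h1 := (f.le_opNorm x)
    rw [hx, mul_one, Real.norm_eq_abs] at h1
    exact (abs_le.1 h1).2
  have hFy' : F y = f y + g y := by rw [← hfg]; rfl
  have hFyx' : F (y - x) = f (y - x) + g (y - x) := by rw [← hfg]; rfl
  have ha1 : a ≤ 1 + η := by
    have h1 : g y = g (y - x) + g x := by rw [← map_add]; congr 1; abel
    linarith
  have hb1 : b ≤ 1 + η := by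
    have h1 : f (y - x) = f y - f x := map_sub _ _ _
    linarith
  -- normalisation estimate
  have hnorm : ∀ (p q : X →L[ℝ] ℝ), p + q = F → 0 < ‖p‖ → ‖p‖ ≤ 1 + η → ‖q‖ ≤ ‖p‖ →
      ‖f₀ - ‖p‖⁻¹ • p‖ ≤ 1 + 3 * η := by
    intro p q hpq hp0 hp1 hqp
    have e : f₀ - ‖p‖⁻¹ • p = -(F - f₀) + (1 - ‖p‖⁻¹) • p + q := by
      ext w
      have hw : F w = p w + q w := by rw [← hpq]; rfl
      simp only [sub_apply, add_apply, neg_apply, smul_apply, smul_eq_mul, hw]
      ring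
    rw [e]
    have h1 : ‖(1 - ‖p‖⁻¹) • p‖ = |‖p‖ - 1| := by
      rw [norm_smul, Real.norm_eq_abs, ← abs_of_pos hp0, ← abs_mul, abs_of_pos hp0, sub_mul,
        one_mul, inv_mul_cancel₀ hp0.ne']
    have h2 : ‖-(F - f₀) + (1 - ‖p‖⁻¹) • p + q‖ ≤ η + |‖p‖ - 1| + ‖q‖ := by
      refine (norm_add_le _ _).trans (add_le_add ((norm_add_le _ _).trans ?_) le_rfl)
      rw [h1, norm_neg]
      exact add_le_add hF le_rfl
    refine h2.trans ?_
    rcases le_total ‖p‖ 1 with h3 | h3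
    · rw [abs_of_nonpos (by linarith)]; linarith
    · rw [abs_of_nonneg (by linarith)]; linarith
  have hunit : ∀ (p : X →L[ℝ] ℝ), 0 < ‖p‖ → ‖‖p‖⁻¹ • p‖ = 1 := by
    intro p hp
    rw [norm_smul, norm_inv, norm_norm]
    exact inv_mul_cancel₀ hp.ne'
  rcases le_total b a with hab | hab
  · have hapos : 0 < a := by linarith
    refine ⟨y, ‖f‖⁻¹ • f, hf2 hapos, hunit f hapos, ?_, ?_, hnorm f g hfg hapos ha1 hab⟩
    · rw [smul_apply, smul_eq_mul, ← hf1, inv_mul_cancel₀ hapos.ne', abs_one]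
    · rw [norm_sub_rev]; exact hyx
  · have hbpos : 0 < b := by linarith
    refine ⟨x - y, ‖g‖⁻¹ • g, ?_, hunit g hbpos, ?_, ?_,
      hnorm g f (by rw [add_comm]; exact hfg) hbpos hb1 hab⟩
    · rw [norm_sub_rev]; exact hg2 hbpos
    · have e : x - y = -(y - x) := by abel
      rw [e, map_neg, abs_neg, smul_apply, smul_eq_mul, ← hg1, inv_mul_cancel₀ hbpos.ne', abs_one]
    · rw [sub_sub_cancel]; exact hy

/-- The classical bound `√(2ε)`. -/
lemma bound_sqrt [CompleteSpace X] (x : X) (f₀ : X →L[ℝ] ℝ) (hx : ‖x‖ = 1) (hf₀ : ‖f₀‖ = 1)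
    (ε : ℝ) (hε : 0 < ε) (hε2 : ε < 2) (h : 1 - ε < f₀ x) :
    ∃ (y : X) (g : X →L[ℝ] ℝ), ‖y‖ = 1 ∧ ‖g‖ = 1 ∧ |g y| = 1 ∧ ‖x - y‖ ≤ Real.sqrt (2 * ε) ∧
      ‖f₀ - g‖ ≤ Real.sqrt (2 * ε) := by
  set k : ℝ := Real.sqrt (2 * ε) / 2 with hk
  have hs0 : 0 < Real.sqrt (2 * ε) := Real.sqrt_pos.2 (by linarith)
  have hsq : Real.sqrt (2 * ε) ^ 2 = 2 * ε := Real.sq_sqrt (by linarith)
  have hk0 : 0 < k := by positivity
  have hk2 : k ^ 2 = ε / 2 := by rw [hk, div_pow, hsq]; ring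
  have hk1 : k < 1 := by
    by_contra hcon
    push Not at hcon
    nlinarith
  obtain ⟨y, F, hyC, hF, hd, hmax⟩ := bp_convex (Metric.closedBall (0 : X) 1)
    Metric.isClosed_closedBall (convex_closedBall _ _) f₀ 1 (fun z hz => by
    have h1 : ‖z‖ ≤ 1 := by simpa using hz
    refine (Real.le_norm_self _).trans ((f₀.le_opNorm z).trans ?_)
    rw [hf₀, one_mul]; exact h1) x (by simp [hx]) k hk0
  have hy : ‖y‖ ≤ 1 := by simpa using hyC
  have hf₀y : f₀ y ≤ 1 := by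
    refine (Real.le_norm_self _).trans ((f₀.le_opNorm y).trans ?_)
    rw [hf₀, one_mul]; exact hy
  obtain ⟨hF1, hF2⟩ := norm_eq_of_max F y hy (fun u hu => hmax u (by simpa using hu))
  have hFn : ‖F‖ ≤ 1 + k := by
    have : F = f₀ + (F - f₀) := by abel
    rw [this]
    refine (norm_add_le _ _).trans ?_
    rw [hf₀]; linarith
  have hFn' : 1 - k ≤ ‖F‖ := by
    have : f₀ = F - (F - f₀) := by abel
    have h1 : ‖f₀‖ ≤ ‖F‖ + ‖F - f₀‖ := by
      conv_lhs => rw [this]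
      exact norm_sub_le _ _
    rw [hf₀] at h1; linarith
  have hF0 : 0 < ‖F‖ := by linarith
  refine ⟨y, ‖F‖⁻¹ • F, hF2 hF0, ?_, ?_, ?_, ?_⟩
  · rw [norm_smul, norm_inv, norm_norm]
    exact inv_mul_cancel₀ hF0.ne'
  · rw [smul_apply, smul_eq_mul, ← hF1, inv_mul_cancel₀ hF0.ne', abs_one]
  · rw [norm_sub_rev]
    have h1 : k * ‖y - x‖ ≤ k * (2 * k) := by nlinarith
    have h2 := le_of_mul_le_mul_left h1 hk0
    rw [hk] at h2; linarith
  · have e : f₀ - ‖F‖⁻¹ • F = -(F - f₀) + (1 - ‖F‖⁻¹) • F := by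
      ext w
      simp only [sub_apply, add_apply, neg_apply, smul_apply, smul_eq_mul]
      ring
    rw [e]
    have h1 : ‖(1 - ‖F‖⁻¹) • F‖ = |‖F‖ - 1| := by
      rw [norm_smul, Real.norm_eq_abs, ← abs_of_pos hF0, ← abs_mul, abs_of_pos hF0, sub_mul,
        one_mul, inv_mul_cancel₀ hF0.ne']
    have h2 : |‖F‖ - 1| ≤ k := by rw [abs_le]; constructor <;> linarith
    refine (norm_add_le _ _).trans ?_
    rw [h1, norm_neg]
    linarith

/-- **Q1 holds**: for every real Banach space `X` and every `ε ∈ (0, 2)`,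
`Φ^S(X, ℝ, ε) ≤ min (√(2ε)) 1`. -/
theorem result (X : Type*) [NormedAddCommGroup X] [NormedSpace ℝ X] [CompleteSpace X]
    (ε : ℝ) (hε : 0 < ε) (hε2 : ε < 2) : modulus X ε ≤ min (Real.sqrt (2 * ε)) 1 := by
  have hbdd : BddBelow {δ : ℝ | 0 < δ ∧ HasProperty X ε δ} := ⟨0, fun δ hδ => hδ.1.le⟩
  apply le_min
  · refine le_of_forall_gt_imp_ge_of_dense fun δ hδ => ?_
    refine csInf_le hbdd ⟨(Real.sqrt_nonneg _).trans_lt hδ, fun x f hx hf h => ?_⟩
    obtain ⟨y, g, hy, hg, hgy, h1, h2⟩ := bound_sqrt x f hx hf ε hε hε2 h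
    exact ⟨y, g, hy, hg, hgy, h1.trans_lt hδ, h2.trans_lt hδ⟩
  · refine le_of_forall_gt_imp_ge_of_dense fun δ hδ => ?_
    refine csInf_le hbdd ⟨zero_lt_one.trans hδ, fun x f hx hf _ => ?_⟩
    let η : ℝ := min (1 / 2) ((δ - 1) / 4)
    have hη0 : 0 < η := lt_min (by norm_num) (by linarith)
    have hη1 : η < 1 := lt_of_le_of_lt (min_le_left _ _) (by norm_num)
    have hη2 : η ≤ (δ - 1) / 4 := min_le_right _ _
    obtain ⟨y, g, hy, hg, hgy, h1, h2⟩ := bound_one x f hx hf η hη0 hη1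
    exact ⟨y, g, hy, hg, hgy, h1.trans_lt hδ, by linarith⟩

end Pool.Agent.Results.MP_7e7193_an.ModulusBound
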